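import Pool.Agent.Run7.h439.DC.Inv3
import Pool.Agent.Results.MP_39d40e_nt.PositiveClass
import Pool.Agent.Results.MP_39d40e_nt.NaturalDensities

set_option autoImplicit false

/-!
# Trajectories of generalised Collatz maps in the classes defined by digits

`T` is a generalised Collatz map of coprime type with `∏ |m_i / d| < 1`. We consider the integers of a
given sign whose absolute values lie in a class given by the residues of strongly additive digit functions
(for example sums of digits) in pairwise coprime bases prime to `d`.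
-/

namespace Pool.Agent.Results.MP_39d40e_nt.DigitClasses

open Filter Topology

/-- The generalised Collatz map `T(x) = (m_i x - r_i) / d` for `x ≡ i mod d`, `0 ≤ i < d`. -/
def T (d : ℕ) (m r : ℕ → ℤ) (x : ℤ) : ℤ := (m (x % d).toNat * x - r (x % d).toNat) / d

/-- `S` is invariant: `x ∈ S` if and only if `T x ∈ S` (unions of classes of trajectories that
meet). -/
def Invariant (d : ℕ) (m r : ℕ → ℤ) (S : Set ℤ) : Prop := ∀ x : ℤ, x ∈ S ↔ T d m r x ∈ S

/-- the trajectory of `x` cycles -/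
def Cycles (d : ℕ) (m r : ℕ → ℤ) (x : ℤ) : Prop := ∃ j p : ℕ, 1 ≤ p ∧ (T d m r)^[j + p] x = (T d m r)^[j] x

/-- the product of the multipliers of the first `k` steps -/
def mult (d : ℕ) (m r : ℕ → ℤ) (k : ℕ) (x : ℤ) : ℤ :=
  ∏ i ∈ Finset.range k, m (((T d m r)^[i] x) % d).toNat

/-- the first term of the trajectory of `x` in `A` is the `k`-th -/
def Enters (d : ℕ) (m r : ℕ → ℤ) (A : Set ℤ) (k : ℕ) (x : ℤ) : Prop :=
  (T d m r)^[k] x ∈ A ∧ ∀ i < k, (T d m r)^[i] x ∉ A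

/-- The values of `f` are in `[-1, 1]`, and `f x` depends only on the first term in `A` of the trajectory
of `x`, on its time, and on the product of the multipliers before; `f` is constant on the set of the
integers whose trajectories miss `A`. -/
structure OfEntrance (d : ℕ) (m r : ℕ → ℤ) (A : Set ℤ) (f : ℤ → ℝ) : Prop where
  bounded : ∀ x, |f x| ≤ 1
  hit : ∀ (k : ℕ) (x y : ℤ), Enters d m r A k x → Enters d m r A k y → (T d m r)^[k] x = (T d m r)^[k] y →
    mult d m r k x = mult d m r k y → f x = f y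
  miss : ∀ x y : ℤ, (∀ k, ¬ Enters d m r A k x) → (∀ k, ¬ Enters d m r A k y) → f x = f y

/-- `W` is strongly `q`-additive: `W(n)` is the sum of the values of `W` at the digits of `n` in base `q`. -/
def StronglyAdditive (q : ℕ) (W : ℕ → ℤ) : Prop := ∀ n u : ℕ, u < q → W (q * n + u) = W n + W u

/-- There is no prime `p ∣ μ` such that `W(u) ≡ u W(1)` modulo `p` for all `u ≤ q`. For the sum of the
digits in base `q` this says that `μ` is coprime to `q - 1`. -/
def Unobstructed (q : ℕ) (W : ℕ → ℤ) (μ : ℕ) : Prop :=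
  ∀ p : ℕ, p.Prime → p ∣ μ → ∃ u : ℕ, u ≤ q ∧ ¬ W u ≡ u * W 1 [ZMOD p]

/-- The data: pairwise coprime bases `q i ≥ 3` prime to `d`, strongly `q i`-additive functions `W i` with
integer values, and moduli `μ i ≥ 1` without obstruction. -/
structure Data (d : ℕ) {l : ℕ} (q μ : Fin l → ℕ) (W : Fin l → ℕ → ℤ) : Prop where
  three : ∀ i, 3 ≤ q i
  prime_to : ∀ i, Nat.Coprime d (q i)
  coprime : ∀ i j, i ≠ j → Nat.Coprime (q i) (q j)
  additive : ∀ i, StronglyAdditive (q i) (W i)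
  pos : ∀ i, 1 ≤ μ i
  free : ∀ i, Unobstructed (q i) (W i) (μ i)

/-- the class: `W i (n) ≡ a i` modulo `μ i` for all `i` -/
def InClass {l : ℕ} (μ : Fin l → ℕ) (W : Fin l → ℕ → ℤ) (a : Fin l → ℤ) (n : ℕ) : Prop :=
  ∀ i, W i n ≡ a i [ZMOD μ i]

/-- The set of the positive integers with the property `P` has natural density `δ`. -/
def HasDensity (P : ℕ → Prop) (δ : ℝ) : Prop :=
  Tendsto (fun N : ℕ => (Set.ncard {n : ℕ | 1 ≤ n ∧ n ≤ N ∧ P n} : ℝ) / N) atTop (𝓝 δ)

open Pool.Agent.Run7.h439.DC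
open Pool.Agent.H319R3.GC (Tm Adm Mw wd Mw_cons)
open Pool.Agent.Y965.PL (Mn MnS ind ind_pos ind_neg ind_congr ind_nonneg)

theorem mult_eq (d : ℕ) (m r : ℕ → ℤ) (k : ℕ) : ∀ x : ℤ, Mw m (wd d m r k x) = mult d m r k x := by
  induction k with
  | zero => intro x; simp [wd, Mw, mult]
  | succ k ih =>
    intro x
    simp only [wd]
    rw [Mw_cons, ih]
    unfold mult
    rw [Finset.prod_range_succ', mul_comm]
    rfl

theorem ef_of {d : ℕ} {m r : ℕ → ℤ} {A : Set ℤ} {f : ℤ → ℝ} (h : OfEntrance d m r A f) (s : ℤ) :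
    EF d m r s (fun x => x ∈ A) (fun n => f (s * n)) := by
  refine ⟨fun n => h.bounded _, fun k n n' h1 h2 h3 h4 => ?_, fun n n' h1 h2 => h.miss _ _ h1 h2⟩
  refine h.hit k _ _ h1 h2 h4 ?_
  rw [← mult_eq, ← mult_eq]
  exact h3

theorem count_ind (P : ℕ → Prop) (X : ℕ) :
    ({n : ℕ | 1 ≤ n ∧ n ≤ X ∧ P n}.ncard : ℝ) = ∑ n ∈ Finset.Icc 1 X, ind P n := by
  classical
  unfold ind
  rw [Finset.sum_boole]
  have e : {n : ℕ | 1 ≤ n ∧ n ≤ X ∧ P n} = ((Finset.Icc 1 X).filter fun n => P n : Finset ℕ) := by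
    ext n
    simp only [Set.mem_ofPred_eq, Finset.coe_filter, Finset.mem_Icc, and_assoc]
  rw [e, Set.ncard_coe_finset]

theorem along_of {P Q : ℕ → Prop} {d : ℝ} (h : Mn (ind Q) d) (hPQ : ∀ n, 1 ≤ n → (P n ↔ Q n)) : HasDensity P d := by
  unfold HasDensity
  unfold Mn at h
  refine h.congr fun X => ?_
  rw [count_ind P X]
  congr 1
  apply Finset.sum_congr rfl
  intro n hn
  exact ind_congr (hPQ _ (Finset.mem_Icc.1 hn).1).symm

theorem dens_unique {P : ℕ → Prop} {a b : ℝ} (h : HasDensity P a) (h' : HasDensity P b) : a = b := tendsto_nhds_unique h h'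

theorem mn_of {S : Set ℤ} {s : ℤ} (hs : s = 1 ∨ s = -1) {δ : ℝ}
    (h : Pool.Agent.Results.MP_39d40e_nt.NaturalDensities.HasDensity S s δ) : Mn (ind (fun n : ℕ => s * (n : ℤ) ∈ S)) δ := by
  unfold Pool.Agent.Y965.PL.Mn
  refine Filter.Tendsto.congr (fun N => ?_) h
  rw [← side_count hs S N]
  congr 3
  ext x
  simp only [Set.mem_ofPred_eq]
  constructor
  · rintro ⟨h1, h2, h3⟩; exact ⟨by omega, h3, h1⟩
  · rintro ⟨h1, h2, h3⟩; exact ⟨h3, by omega, h2⟩

theorem cyc_inv (d : ℕ) (m r : ℕ → ℤ) : Invariant d m r {x : ℤ | Cycles d m r x} := by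
  intro x
  constructor
  · rintro ⟨j, p, hp, h⟩
    refine ⟨j, p, hp, ?_⟩
    rw [← Function.iterate_succ_apply, ← Function.iterate_succ_apply, Function.iterate_succ_apply',
      Function.iterate_succ_apply', h]
  · rintro ⟨j, p, hp, h⟩
    refine ⟨j + 1, p, hp, ?_⟩
    have e : j + 1 + p = (j + p) + 1 := by ring
    rw [e, Function.iterate_succ_apply, Function.iterate_succ_apply]
    exact h

/-- TRAJECTORIES OF GENERALISED COLLATZ MAPS IN DIGIT CLASSES. `T` of coprime type (`gcd(m_i, d) = 1`)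
with `Λ < 1`, that is `∏ |m_i / d| < 1`, and not all `|m_i|` equal; `P = ∏ |m_i|`.

(1) (Uniform transfer.) For all data `q, μ, W` there are `K` and `c > 0` such that for both signs `s`, all
functions `f` with `f (T x) = f x` and `|f| ≤ 1`, all classes `a` and all `X ≥ 1` the sum of `f (s n)` over
the `n ≤ X` in the class is `∏ 1 / μ i` times the sum over all `n ≤ X`, up to `K X ^ (1 - c)`.

(2) For all data and all `R` there are `K` and `c > 0` such that the same holds for all functions `f` of the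
first entrance into a set `A ⊆ [-R, R]` (time, place, product of the multipliers), uniformly in `A` and `f`.

(3) For every invariant set `S` and both signs `s` the `n` with `s n ∈ S` have a natural density `δ`, and for
all data and all classes those in the class have natural density `(∏ 1 / μ i) * δ`.

(4) There are `N` and `y₀` such that, if for some data and some class for both signs `s` the `n` in the
class for which the trajectory of `s n` does not cycle have natural density `0`, then for both signs `s`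
the `n` for which the trajectory of `s n` does not cycle have natural density `0`, and the trajectory of
every `z ≡ y₀ mod P ^ N` cycles. -/
theorem result (d : ℕ) (hd : 2 ≤ d) (m r : ℕ → ℤ) (hm : ∀ i < d, IsCoprime (m i) (d : ℤ))
    (hr : ∀ i < d, r i ≡ i * m i [ZMOD d]) (hL : ∏ i ∈ Finset.range d, |(m i : ℝ) / d| < 1)
    (hne : ∃ i < d, ∃ j < d, |m i| ≠ |m j|) :
    (∀ (l : ℕ) (q μ : Fin l → ℕ) (W : Fin l → ℕ → ℤ), Data d q μ W → ∃ K c : ℝ, 0 < c ∧
      ∀ s : ℤ, s = 1 ∨ s = -1 → ∀ f : ℤ → ℝ, (∀ x, |f x| ≤ 1) → (∀ x, f (T d m r x) = f x) →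
      ∀ (a : Fin l → ℤ) (X : ℕ), 1 ≤ X →
        |∑ᶠ n ∈ {n : ℕ | 1 ≤ n ∧ n ≤ X ∧ InClass μ W a n}, f (s * n) -
          (∏ i, 1 / (μ i : ℝ)) * ∑ n ∈ Finset.Icc 1 X, f (s * n)| ≤ K * (X : ℝ) ^ (1 - c)) ∧
    (∀ (l : ℕ) (q μ : Fin l → ℕ) (W : Fin l → ℕ → ℤ), Data d q μ W → ∀ R : ℕ, ∃ K c : ℝ, 0 < c ∧
      ∀ s : ℤ, s = 1 ∨ s = -1 → ∀ A : Set ℤ, (∀ x ∈ A, |x| ≤ (R : ℤ)) → ∀ f : ℤ → ℝ, OfEntrance d m r A f →
      ∀ (a : Fin l → ℤ) (X : ℕ), 1 ≤ X →
        |∑ᶠ n ∈ {n : ℕ | 1 ≤ n ∧ n ≤ X ∧ InClass μ W a n}, f (s * n) -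
          (∏ i, 1 / (μ i : ℝ)) * ∑ n ∈ Finset.Icc 1 X, f (s * n)| ≤ K * (X : ℝ) ^ (1 - c)) ∧
    (∀ s : ℤ, s = 1 ∨ s = -1 → ∀ S : Set ℤ, Invariant d m r S → ∃ δ : ℝ,
      HasDensity (fun n => s * (n : ℤ) ∈ S) δ ∧
      ∀ (l : ℕ) (q μ : Fin l → ℕ) (W : Fin l → ℕ → ℤ), Data d q μ W → ∀ a : Fin l → ℤ,
        HasDensity (fun n => InClass μ W a n ∧ s * (n : ℤ) ∈ S) ((∏ i, 1 / (μ i : ℝ)) * δ)) ∧
    ∃ (N : ℕ) (y₀ : ℤ), ∀ (l : ℕ) (q μ : Fin l → ℕ) (W : Fin l → ℕ → ℤ), Data d q μ W → ∀ a : Fin l → ℤ,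
      (∀ s : ℤ, s = 1 ∨ s = -1 → HasDensity (fun n => InClass μ W a n ∧ ¬ Cycles d m r (s * n)) 0) →
      (∀ s : ℤ, s = 1 ∨ s = -1 → HasDensity (fun n => ¬ Cycles d m r (s * n)) 0) ∧
      ∀ z : ℤ, z ≡ y₀ [ZMOD (∏ i ∈ Finset.range d, |m i|) ^ N] → Cycles d m r z := by
  classical
  have hA : Adm d m r := by
    obtain ⟨i, hi, j, hj, hij⟩ := hne
    have hij' : (m i).natAbs ≠ (m j).natAbs := by
      intro hcon
      apply hij
      rw [Int.abs_eq_natAbs, Int.abs_eq_natAbs, hcon]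
    have hd0 : (0 : ℝ) < d := by positivity
    have hadm : ∀ i < d, (d : ℤ) ∣ m i * i - r i := by
      intro i hi
      have h1 := (hr i hi).dvd
      rwa [mul_comm (i : ℤ)] at h1
    have hc : ∏ i ∈ Finset.range d, (m i).natAbs < d ^ d := by
      have h1 : ∏ i ∈ Finset.range d, |(m i : ℝ) / d| = (∏ i ∈ Finset.range d, |(m i : ℝ)|) / (d : ℝ) ^ d := by
        simp only [abs_div, abs_of_pos hd0]
        rw [Finset.prod_div_distrib, Finset.prod_const, Finset.card_range]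
      rw [h1, div_lt_one (by positivity)] at hL
      have h2 : ((∏ i ∈ Finset.range d, (m i).natAbs : ℕ) : ℝ) = ∏ i ∈ Finset.range d, |(m i : ℝ)| := by
        push_cast
        refine Finset.prod_congr rfl fun i _ => ?_
        rw [Nat.cast_natAbs]
        push_cast
        rfl
      have h3 : ((∏ i ∈ Finset.range d, (m i).natAbs : ℕ) : ℝ) < ((d ^ d : ℕ) : ℝ) := by
        rw [h2]; push_cast; exact hL
      exact_mod_cast h3
    have hnz : ∀ i ∈ Finset.range d, 1 ≤ (m i).natAbs := by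
      intro i hi
      rcases Nat.eq_zero_or_pos (m i).natAbs with h0 | h0
      · exfalso
        have h1 := hm i (Finset.mem_range.1 hi)
        rw [Int.natAbs_eq_zero.1 h0] at h1
        have h2 := isCoprime_zero_left.1 h1
        have h3 := Int.isUnit_iff.1 h2
        omega
      · exact h0
    have hbig : 2 ≤ ∏ i ∈ Finset.range d, (m i).natAbs := by
      have h1 : 2 ≤ (m i).natAbs ∨ 2 ≤ (m j).natAbs := by
        have h2 := hnz i (Finset.mem_range.2 hi)
        have h3 := hnz j (Finset.mem_range.2 hj)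
        omega
      have h4 : ∀ l < d, (m l).natAbs ≤ ∏ i ∈ Finset.range d, (m i).natAbs := by
        intro l hl
        exact Nat.le_of_dvd (Finset.prod_pos fun i hi => hnz i hi)
          (Finset.dvd_prod_of_mem _ (Finset.mem_range.2 hl))
      rcases h1 with h1 | h1
      · exact h1.trans (h4 i hi)
      · exact h1.trans (h4 j hj)
    exact ⟨hd, hm, hadm, hc, hbig⟩
  have hDD : ∀ {l : ℕ} {q μ : Fin l → ℕ} {W : Fin l → ℕ → ℤ}, Data d q μ W → DD d q μ W :=
    fun hD => ⟨hD.three, hD.prime_to, hD.coprime, hD.additive, hD.pos, hD.free⟩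
  have hcl : ∀ {l : ℕ} {μ : Fin l → ℕ} {W : Fin l → ℕ → ℤ} {a : Fin l → ℤ} (n : ℕ), InClass μ W a n ↔ Ed μ W a n :=
    fun n => Ed_iff
  have hset : ∀ {l : ℕ} {μ : Fin l → ℕ} {W : Fin l → ℕ → ℤ} {a : Fin l → ℤ} (X : ℕ) (g : ℕ → ℝ),
      ∑ᶠ n ∈ {n : ℕ | 1 ≤ n ∧ n ≤ X ∧ InClass μ W a n}, g n = ∑ n ∈ Finset.Icc 1 X, ind (Ed μ W a) n * g n := by
    intro l μ W a X g
    rw [finsum_mem_eq_finite_toFinset_sum _ ((Set.finite_Iic X).subset fun n hn => hn.2.1)]
    have e : ((Set.finite_Iic X).subset fun n (hn : n ∈ {n : ℕ | 1 ≤ n ∧ n ≤ X ∧ InClass μ W a n}) => hn.2.1).toFinset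
        = (Finset.Icc 1 X).filter (fun n => Ed μ W a n) := by
      ext n
      simp only [Set.Finite.mem_toFinset, Set.mem_ofPred_eq, Finset.mem_filter, Finset.mem_Icc, hcl, and_assoc]
    rw [e, Finset.sum_filter]
    apply Finset.sum_congr rfl
    intro n _
    by_cases h : Ed μ W a n
    · rw [if_pos h, ind_pos h, one_mul]
    · rw [if_neg h, ind_neg h, zero_mul]
  obtain ⟨hnat, _, _⟩ := Pool.Agent.Results.MP_39d40e_nt.NaturalDensities.result d hd m r hm hr hL hne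
  have hmain : ∀ s : ℤ, s = 1 ∨ s = -1 → ∀ S : Set ℤ, Invariant d m r S → ∃ δ : ℝ,
      Pool.Agent.Results.MP_39d40e_nt.NaturalDensities.HasDensity S s δ ∧
      HasDensity (fun n => s * (n : ℤ) ∈ S) δ ∧
      ∀ (l : ℕ) (q μ : Fin l → ℕ) (W : Fin l → ℕ → ℤ), Data d q μ W → ∀ a : Fin l → ℤ,
        HasDensity (fun n => InClass μ W a n ∧ s * (n : ℤ) ∈ S) ((∏ i, 1 / (μ i : ℝ)) * δ) := by
    intro s hs S hS
    obtain ⟨δ, hδ⟩ : ∃ δ : ℝ, Pool.Agent.Results.MP_39d40e_nt.NaturalDensities.HasDensity S s δ := by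
      obtain ⟨a, b, ha, hb, _⟩ := hnat S hS
      rcases hs with rfl | rfl
      · exact ⟨a, ha⟩
      · exact ⟨b, hb⟩
    have hM := mn_of hs hδ
    refine ⟨δ, hδ, along_of hM fun _ _ => Iff.rfl, fun l q μ W hD a => ?_⟩
    obtain ⟨C, c, hC, hc0, _, hT⟩ := inv_ct hA (hDD hD)
    obtain ⟨hρ0, hρ1⟩ := rho01 hD.pos
    have h1 := inv_ct_set (s := s) (fun f hb hf => hT s hs f hb hf a) (S := S) hS
    exact along_of (cls_set hρ0.le hρ1 hc0 h1 hM) fun n _ => and_congr (hcl n) Iff.rfl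
  refine ⟨fun l q μ W hD => ?_, fun l q μ W hD R => ?_, fun s hs S hS => ?_, ?_⟩
  · obtain ⟨C, c, hC, hc0, _, hT⟩ := inv_ct hA (hDD hD)
    refine ⟨C, c, hc0, fun s hs f hb hf a X hX => ?_⟩
    rw [hset]
    exact (hT s hs f hb hf a).tr X hX
  · obtain ⟨k0, hk0⟩ := ksync_fe hA R
    obtain ⟨C, c, hC, hc0, H⟩ := ct_digits hA 2 k0 q (hDD hD).three (hDD hD).copd (hDD hD).cop W
      (hDD hD).add μ (hDD hD).pos (fun i => obs_one ((hDD hD).free i))
    refine ⟨C, c, hc0, fun s hs A hAR f hf a X hX => ?_⟩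
    rw [hset]
    exact (H s hs _ (hk0 s hs _ hAR _ (ef_of hf s)) a).tr X hX
  · obtain ⟨δ, _, h1, h2⟩ := hmain s hs S hS
    exact ⟨δ, h1, h2⟩
  · obtain ⟨N, y₀, _, hp, _⟩ := Pool.Agent.Results.MP_39d40e_nt.PositiveClass.result d hd m r hm hr hL hne
    refine ⟨N, y₀, fun l q μ W hD a h => ?_⟩
    have hS : Invariant d m r {x : ℤ | ¬ Cycles d m r x} := fun x => not_congr (cyc_inv d m r x)
    have hz : ∀ s : ℤ, s = 1 ∨ s = -1 → ∀ δ : ℝ,
        Pool.Agent.Results.MP_39d40e_nt.NaturalDensities.HasDensity {x : ℤ | ¬ Cycles d m r x} s δ → δ = 0 := by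
      intro s hs δ hδ
      obtain ⟨δ', hδ', _, h2⟩ := hmain s hs _ hS
      have h3 := dens_unique (h2 l q μ W hD a) (h s hs)
      have h4 : δ = δ' := tendsto_nhds_unique hδ hδ'
      obtain ⟨hρ0, _⟩ := rho01 hD.pos
      rcases mul_eq_zero.1 h3 with h5 | h5
      · exact absurd h5 hρ0.ne'
      · rw [h4, h5]
    constructor
    · intro s hs
      obtain ⟨δ, hδ, h1, _⟩ := hmain s hs _ hS
      rw [hz s hs δ hδ] at h1
      exact h1
    · intro z hzz
      by_contra hcon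
      obtain ⟨a', b', ha, hb, hab⟩ := hp {x : ℤ | ¬ Cycles d m r x} hS z hcon hzz
      have h1 := hz 1 (Or.inl rfl) a' ha
      have h2 := hz (-1) (Or.inr rfl) b' hb
      linarith

end Pool.Agent.Results.MP_39d40e_nt.DigitClasses
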