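import Pool.Agent.Run7.h792.FL.Inv
import Pool.Agent.Results.MP_39d40e_nt.PositiveClass
import Pool.Agent.Results.MP_39d40e_nt.NaturalDensities

set_option autoImplicit false

/-!
# Trajectories of generalised Collatz maps and functions modulo large numbers

`T` is a generalised Collatz map of coprime type with `∏ |m_i / d| < 1`. Fix `0 < ε < 1`. At the scale `N`, the
invariant functions are independent, with a power saving which is uniform in the invariant function, of every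
function of `n` modulo a `q` between `N ^ ε` and `N ^ (1 - ε)`, coprime to `d`, whose Fourier coefficients at the
nonzero frequencies are at most `q ^ (1 / 2 + η)`. So every invariant set has its proportional share in every
set of residues of this kind, for example in the quadratic residues modulo a prime between `N ^ ε` and
`N ^ (1 - ε)`.

Method: the dispersion argument of `Pool.Agent.Run7.h439.DC.Orth` at a level which is a small proportion of
`log q`; the correlations of the function along the progressions modulo the powers of `d` are, up to `O(q)`,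
autocorrelations over whole periods, and the sum of the squares of the latter is bounded by Parseval.
-/

namespace Pool.Agent.Results.MP_39d40e_nt.FlatResidues

open Filter Topology

/-- The generalised Collatz map `T(x) = (m_i x - r_i) / d` for `x ≡ i mod d`, `0 ≤ i < d`. -/
def T (d : ℕ) (m r : ℕ → ℤ) (x : ℤ) : ℤ := (m (x % d).toNat * x - r (x % d).toNat) / d

/-- `S` is invariant: `x ∈ S` if and only if `T x ∈ S` (unions of classes of trajectories that
meet). -/
def Invariant (d : ℕ) (m r : ℕ → ℤ) (S : Set ℤ) : Prop := ∀ x : ℤ, x ∈ S ↔ T d m r x ∈ S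

/-- the trajectory of `x` cycles -/
def Cycles (d : ℕ) (m r : ℕ → ℤ) (x : ℤ) : Prop := ∃ j p : ℕ, 1 ≤ p ∧ (T d m r)^[j + p] x = (T d m r)^[j] x

/-- `f` has period `q`, values of modulus at most `1`, and its Fourier coefficients at the nonzero
frequencies have modulus at most `q ^ (1 / 2 + η)`. -/
structure Flat (q : ℕ) (η : ℝ) (f : ℕ → ℂ) : Prop where
  bounded : ∀ n, ‖f n‖ ≤ 1
  periodic : ∀ n, f (n + q) = f n
  fourier : ∀ h : ℕ, 0 < h → h < q →
    ‖∑ a ∈ Finset.range q, f a * Complex.exp (2 * Real.pi * Complex.I * (h * a) / q)‖ ≤ (q : ℝ) ^ (1 / 2 + η)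

/-- the mean value of a function with period `q` -/
noncomputable def mean (q : ℕ) (f : ℕ → ℂ) : ℂ := (∑ a ∈ Finset.range q, f a) / q

/-- `A` is a subset of `{0, ..., q - 1}`, and the indicator function of the integers which are congruent to
an element of `A` modulo `q` is `Flat`. -/
def FlatSet (q : ℕ) (η : ℝ) (A : Finset ℕ) : Prop :=
  A ⊆ Finset.range q ∧ Flat q η (fun n => if n % q ∈ A then 1 else 0)

/-- `q` is coprime to `d` and `N ^ ε ≤ q ≤ N ^ (1 - ε)`. -/
def InRange (d : ℕ) (ε : ℝ) (N q : ℕ) : Prop := Nat.Coprime d q ∧ (N : ℝ) ^ ε ≤ q ∧ (q : ℝ) ≤ (N : ℝ) ^ (1 - ε)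

/-- the number of the `1 ≤ n ≤ X` with the property `P` -/
noncomputable def count (P : ℕ → Prop) (X : ℕ) : ℝ := (Set.ncard {n : ℕ | 1 ≤ n ∧ n ≤ X ∧ P n} : ℝ)

/-- The set of the positive integers with the property `P` has natural density `δ`. -/
def HasDensity (P : ℕ → Prop) (δ : ℝ) : Prop := Tendsto (fun N : ℕ => count P N / N) atTop (𝓝 δ)

open Pool.Agent.Run7.h792.FL Pool.Agent.Run7.h439.DC
open Pool.Agent.H319R3.GC (Tm Adm Mw wd Mw_cons)
open Pool.Agent.Y965.PL (Mn MnS ind ind_pos ind_neg ind_congr ind_nonneg)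

theorem count_ind (P : ℕ → Prop) (X : ℕ) : count P X = ∑ n ∈ Finset.Icc 1 X, ind P n := by
  classical
  unfold ind count
  rw [Finset.sum_boole]
  have e : {n : ℕ | 1 ≤ n ∧ n ≤ X ∧ P n} = ((Finset.Icc 1 X).filter fun n => P n : Finset ℕ) := by
    ext n
    simp only [Set.mem_ofPred_eq, Finset.coe_filter, Finset.mem_Icc, and_assoc]
  rw [e, Set.ncard_coe_finset]

theorem along_of {P Q : ℕ → Prop} {d : ℝ} (h : Mn (ind Q) d) (hPQ : ∀ n, 1 ≤ n → (P n ↔ Q n)) : HasDensity P d := by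
  unfold HasDensity
  unfold Mn at h
  refine h.congr fun X => ?_
  rw [count_ind P X]
  congr 1
  apply Finset.sum_congr rfl
  intro n hn
  exact ind_congr (hPQ _ (Finset.mem_Icc.1 hn).1).symm

theorem mn_of {S : Set ℤ} {s : ℤ} (hs : s = 1 ∨ s = -1) {δ : ℝ}
    (h : Pool.Agent.Results.MP_39d40e_nt.NaturalDensities.HasDensity S s δ) : Mn (ind (fun n : ℕ => s * (n : ℤ) ∈ S)) δ := by
  unfold Pool.Agent.Y965.PL.Mn
  refine Filter.Tendsto.congr (fun N => ?_) h
  rw [← side_count hs S N]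
  congr 3
  ext x
  simp only [Set.mem_ofPred_eq]
  constructor
  · rintro ⟨h1, h2, h3⟩; exact ⟨by omega, h3, h1⟩
  · rintro ⟨h1, h2, h3⟩; exact ⟨h3, by omega, h2⟩

theorem cyc_inv (d : ℕ) (m r : ℕ → ℤ) : Invariant d m r {x : ℤ | Cycles d m r x} := by
  intro x
  constructor
  · rintro ⟨j, p, hp, h⟩
    refine ⟨j, p, hp, ?_⟩
    rw [← Function.iterate_succ_apply, ← Function.iterate_succ_apply, Function.iterate_succ_apply',
      Function.iterate_succ_apply', h]
  · rintro ⟨j, p, hp, h⟩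
    refine ⟨j + 1, p, hp, ?_⟩
    have e : j + 1 + p = (j + p) + 1 := by ring
    rw [e, Function.iterate_succ_apply, Function.iterate_succ_apply]
    exact h

/-- TRAJECTORIES OF GENERALISED COLLATZ MAPS AND FUNCTIONS MODULO LARGE NUMBERS. `T` of coprime type
(`gcd(m_i, d) = 1`) with `Λ < 1`, that is `∏ |m_i / d| < 1`, and not all `|m_i|` equal; `P = ∏ |m_i|`. For every
`0 < ε < 1` there are `η`, `c`, `K > 0` with the following properties; `N ≥ 1`, and `q` is coprime to `d` with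
`N ^ ε ≤ q ≤ N ^ (1 - ε)`.

(1) (Uniform transfer.) For every `g` with period `q` and modulus at most `1` whose Fourier coefficients at
the nonzero frequencies are at most `q ^ (1 / 2 + η)`, both signs `s`, all functions `f` with `f (T x) = f x` and
`|f| ≤ 1` and all `X ≤ N` the sum over the `n ≤ X` of `f (s n)` times `g(n)` minus the mean value of `g` has
modulus at most `K N ^ (1 - c)`.

(2) For every invariant set `S` and both signs `s` the `n` with `s n ∈ S` have a natural density `δ`, and for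
`0 ≤ v < c`, `τ > 0`, all large `N`, all `q` and all flat sets `A` of residues modulo `q` with `|A| ≥ q N ^ (-v)` the
number of those `n ≤ N` which lie in the classes of `A` is `δ |A| / q * N` up to `τ |A| / q * N`.

(3) There are `M` and `y₀` such that, if for some `0 ≤ v < c`, for both signs `s` and for infinitely many `N`
there are a number `q` and a flat `A` with `|A| ≥ q N ^ (-v)` such that at most `o(|A| / q * N)` of the `n ≤ N` in
the classes of `A` are such that the trajectory of `s n` does not cycle, then for both signs `s` the `n` for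
which the trajectory of `s n` does not cycle have natural density `0`, and the trajectory of every
`z ≡ y₀ mod P ^ M` cycles.

(4) (Examples.) The hypothesis on `g` holds for the primitive Dirichlet characters modulo `q`, for
`exp (2 π i (a n ^ 2 + b n) / q)` with `q` odd and `a` coprime to `q`, and the hypothesis on `A` holds if `q = p` is
prime and `A` is invariant under multiplication by the `k`-th powers coprime to `p`, where `k + 1 ≤ p ^ (2 η)`. -/
theorem result (d : ℕ) (hd : 2 ≤ d) (m r : ℕ → ℤ) (hm : ∀ i < d, IsCoprime (m i) (d : ℤ))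
    (hr : ∀ i < d, r i ≡ i * m i [ZMOD d]) (hL : ∏ i ∈ Finset.range d, |(m i : ℝ) / d| < 1)
    (hne : ∃ i < d, ∃ j < d, |m i| ≠ |m j|) : ∀ ε : ℝ, 0 < ε → ε < 1 →
    ∃ η c K : ℝ, 0 < η ∧ 0 < c ∧ c < 1 ∧ 0 < K ∧
    (∀ N q : ℕ, 1 ≤ N → InRange d ε N q → ∀ g : ℕ → ℂ, Flat q η g → ∀ s : ℤ, s = 1 ∨ s = -1 →
      ∀ f : ℤ → ℝ, (∀ x, |f x| ≤ 1) → (∀ x, f (T d m r x) = f x) → ∀ X : ℕ, X ≤ N →
      ‖∑ n ∈ Finset.Icc 1 X, (f (s * n) : ℂ) * (g n - mean q g)‖ ≤ K * (N : ℝ) ^ (1 - c)) ∧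
    (∀ s : ℤ, s = 1 ∨ s = -1 → ∀ S : Set ℤ, Invariant d m r S → ∃ δ : ℝ,
      HasDensity (fun n => s * (n : ℤ) ∈ S) δ ∧
      ∀ v : ℝ, 0 ≤ v → v < c → ∀ τ : ℝ, 0 < τ → ∃ N₀ : ℕ, ∀ N : ℕ, N₀ ≤ N → ∀ q : ℕ, InRange d ε N q →
      ∀ A : Finset ℕ, FlatSet q η A → (q : ℝ) * (N : ℝ) ^ (-v) ≤ A.card →
      |count (fun n => n % q ∈ A ∧ s * (n : ℤ) ∈ S) N - δ * (A.card / q * N)| ≤ τ * (A.card / q * N)) ∧
    (∃ (M : ℕ) (y₀ : ℤ), ∀ v : ℝ, 0 ≤ v → v < c → ∀ ψ : ℕ → ℝ, Tendsto ψ atTop (𝓝 0) →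
      (∀ s : ℤ, s = 1 ∨ s = -1 → ∃ᶠ N : ℕ in atTop, ∃ q : ℕ, InRange d ε N q ∧ ∃ A : Finset ℕ, FlatSet q η A ∧
        (q : ℝ) * (N : ℝ) ^ (-v) ≤ A.card ∧
        count (fun n => n % q ∈ A ∧ ¬ Cycles d m r (s * n)) N ≤ ψ N * (A.card / q * N)) →
      (∀ s : ℤ, s = 1 ∨ s = -1 → HasDensity (fun n => ¬ Cycles d m r (s * n)) 0) ∧
      ∀ z : ℤ, z ≡ y₀ [ZMOD (∏ i ∈ Finset.range d, |m i|) ^ M] → Cycles d m r z) ∧
    (∀ (q : ℕ) (χ : DirichletCharacter ℂ q), 1 ≤ q → χ.IsPrimitive → Flat q η (fun n => χ n)) ∧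
    (∀ (q : ℕ) (a b : ℤ), Odd q → IsCoprime a q →
      Flat q η (fun n => Complex.exp (2 * Real.pi * Complex.I * (a * n ^ 2 + b * n) / q))) ∧
    (∀ p k : ℕ, p.Prime → 1 ≤ k → (k : ℝ) + 1 ≤ (p : ℝ) ^ (2 * η) → ∀ A : Finset ℕ, A ⊆ Finset.range p →
      (∀ b : ℕ, Nat.Coprime b p → ∀ a ∈ A, b ^ k * a % p ∈ A) → FlatSet p η A) := by
  classical
  intro ε hε hε1
  have hA : Adm d m r := by
    obtain ⟨i, hi, j, hj, hij⟩ := hne
    have hij' : (m i).natAbs ≠ (m j).natAbs := by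
      intro hcon
      apply hij
      rw [Int.abs_eq_natAbs, Int.abs_eq_natAbs, hcon]
    have hd0 : (0 : ℝ) < d := by positivity
    have hadm : ∀ i < d, (d : ℤ) ∣ m i * i - r i := by
      intro i hi
      have h1 := (hr i hi).dvd
      rwa [mul_comm (i : ℤ)] at h1
    have hc : ∏ i ∈ Finset.range d, (m i).natAbs < d ^ d := by
      have h1 : ∏ i ∈ Finset.range d, |(m i : ℝ) / d| = (∏ i ∈ Finset.range d, |(m i : ℝ)|) / (d : ℝ) ^ d := by
        simp only [abs_div, abs_of_pos hd0]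
        rw [Finset.prod_div_distrib, Finset.prod_const, Finset.card_range]
      rw [h1, div_lt_one (by positivity)] at hL
      have h2 : ((∏ i ∈ Finset.range d, (m i).natAbs : ℕ) : ℝ) = ∏ i ∈ Finset.range d, |(m i : ℝ)| := by
        push_cast
        refine Finset.prod_congr rfl fun i _ => ?_
        rw [Nat.cast_natAbs]
        push_cast
        rfl
      have h3 : ((∏ i ∈ Finset.range d, (m i).natAbs : ℕ) : ℝ) < ((d ^ d : ℕ) : ℝ) := by
        rw [h2]; push_cast; exact hL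
      exact_mod_cast h3
    have hnz : ∀ i ∈ Finset.range d, 1 ≤ (m i).natAbs := by
      intro i hi
      rcases Nat.eq_zero_or_pos (m i).natAbs with h0 | h0
      · exfalso
        have h1 := hm i (Finset.mem_range.1 hi)
        rw [Int.natAbs_eq_zero.1 h0] at h1
        have h2 := isCoprime_zero_left.1 h1
        have h3 := Int.isUnit_iff.1 h2
        omega
      · exact h0
    have hbig : 2 ≤ ∏ i ∈ Finset.range d, (m i).natAbs := by
      have h1 : 2 ≤ (m i).natAbs ∨ 2 ≤ (m j).natAbs := by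
        have h2 := hnz i (Finset.mem_range.2 hi)
        have h3 := hnz j (Finset.mem_range.2 hj)
        omega
      have h4 : ∀ l < d, (m l).natAbs ≤ ∏ i ∈ Finset.range d, (m i).natAbs := by
        intro l hl
        exact Nat.le_of_dvd (Finset.prod_pos fun i hi => hnz i hi)
          (Finset.dvd_prod_of_mem _ (Finset.mem_range.2 hl))
      rcases h1 with h1 | h1
      · exact h1.trans (h4 i hi)
      · exact h1.trans (h4 j hj)
    exact ⟨hd, hm, hadm, hc, hbig⟩
  obtain ⟨η, c, K, hη, hc0, hc1, hK, S₀⟩ := scaleF hA 1 0 0 hε hε1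
  have hFl : ∀ {q : ℕ} {f : ℕ → ℂ}, Flat q η f → FlatP q η f := fun h => ⟨h.1, h.2, h.3⟩
  have hlF : ∀ {q : ℕ} {f : ℕ → ℂ}, FlatP q η f → Flat q η f := fun h => ⟨h.1, h.2, h.3⟩
  have hFs : ∀ {q : ℕ} {A : Finset ℕ}, FlatSet q η A → FlatI q η A := fun h => ⟨h.1, hFl h.2⟩
  have hrho : ∀ {N q : ℕ} {A : Finset ℕ} {v : ℝ}, 1 ≤ q → (q : ℝ) * (N : ℝ) ^ (-v) ≤ A.card → (N : ℝ) ^ (-v) ≤ (A.card / q : ℝ) := by
    intro N q A v hq0 h
    have hqr : (0 : ℝ) < q := by exact_mod_cast hq0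
    rw [le_div_iff₀ hqr]
    linarith
  have hqpos : ∀ {N q : ℕ}, 1 ≤ N → InRange d ε N q → 1 ≤ q := by
    intro N q hN hq
    have h1 : (1 : ℝ) ≤ (N : ℝ) ^ ε := Real.one_le_rpow (by exact_mod_cast hN) hε.le
    have h2 : (1 : ℝ) ≤ q := h1.trans hq.2.1
    exact_mod_cast h2
  have hcnt : ∀ (E P : ℕ → Prop) (X : ℕ), count (fun n => E n ∧ P n) X = ∑ n ∈ Finset.Icc 1 X, ind E n * ind P n := by
    intro E P X
    rw [count_ind]
    apply Finset.sum_congr rfl
    intro n _
    exact ind_and _ _ n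
  obtain ⟨hnat, _, _⟩ := Pool.Agent.Results.MP_39d40e_nt.NaturalDensities.result d hd m r hm hr hL hne
  have hmain : ∀ s : ℤ, s = 1 ∨ s = -1 → ∀ S : Set ℤ, Invariant d m r S → ∃ δ : ℝ,
      Pool.Agent.Results.MP_39d40e_nt.NaturalDensities.HasDensity S s δ ∧ 0 ≤ δ ∧
      HasDensity (fun n => s * (n : ℤ) ∈ S) δ ∧
      ∀ v : ℝ, 0 ≤ v → v < c → ∀ τ : ℝ, 0 < τ → ∃ N₀ : ℕ, 1 ≤ N₀ ∧ ∀ N : ℕ, N₀ ≤ N → ∀ q : ℕ, InRange d ε N q →
      ∀ A : Finset ℕ, FlatSet q η A → (q : ℝ) * (N : ℝ) ^ (-v) ≤ A.card →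
      |count (fun n => n % q ∈ A ∧ s * (n : ℤ) ∈ S) N - δ * (A.card / q * N)| ≤ τ * (A.card / q * N) := by
    intro s hs S hS
    obtain ⟨δ, hδ⟩ : ∃ δ : ℝ, Pool.Agent.Results.MP_39d40e_nt.NaturalDensities.HasDensity S s δ := by
      obtain ⟨a, b, ha, hb, _⟩ := hnat S hS
      rcases hs with rfl | rfl
      · exact ⟨a, ha⟩
      · exact ⟨b, hb⟩
    have hM := mn_of hs hδ
    have hHD : HasDensity (fun n => s * (n : ℤ) ∈ S) δ := along_of hM fun _ _ => Iff.rfl
    have hδ0 : 0 ≤ δ := by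
      refine ge_of_tendsto hHD ?_
      filter_upwards with N
      unfold count
      positivity
    refine ⟨δ, hδ, hδ0, hHD, fun v hv0 hv τ hτ => ?_⟩
    obtain ⟨N₀, hN₀⟩ := (dens hM (C := K) hv hτ).exists_forall_of_atTop
    refine ⟨max N₀ 1, le_max_right _ _, fun N hN q hq A hA' hcard => ?_⟩
    have hN1 : 1 ≤ N := (le_max_right _ _).trans hN
    have h5 := hN₀ N ((le_max_left _ _).trans hN) (fun n => n % q ∈ A) (A.card / q) (hrho (hqpos hN1 hq) hcard)
      (S₀.set1 hs hN1 (hqpos hN1 hq) hq.1 hq.2.1 hq.2.2 (hFs hA') (ksync_set (fun x => hS x)))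
    rw [hcnt]
    exact h5
  refine ⟨η, c, K + 1, hη, hc0, hc1, by linarith, ?_, ?_, ?_, ?_, ?_, ?_⟩
  · intro N q hN hq g hg s hs f hb hf X hX
    have h4 := S₀.fun1 hs hN (hqpos hN hq) hq.1 hq.2.1 hq.2.2 (hFl hg) (ksync_f hb (fun x => hf x)) hX
    refine h4.trans ?_
    have : 0 ≤ (N : ℝ) ^ (1 - c) := by positivity
    nlinarith
  · intro s hs S hS
    obtain ⟨δ, _, _, h1, h2⟩ := hmain s hs S hS
    refine ⟨δ, h1, fun v hv0 hv τ hτ => ?_⟩
    obtain ⟨N₀, _, h3⟩ := h2 v hv0 hv τ hτ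
    exact ⟨N₀, h3⟩
  · obtain ⟨M, y₀, _, hp, _⟩ := Pool.Agent.Results.MP_39d40e_nt.PositiveClass.result d hd m r hm hr hL hne
    refine ⟨M, y₀, fun v hv0 hv ψ hψ hfr => ?_⟩
    have hS : Invariant d m r {x : ℤ | ¬ Cycles d m r x} := fun x => not_congr (cyc_inv d m r x)
    have hz : ∀ s : ℤ, s = 1 ∨ s = -1 → ∀ δ : ℝ,
        Pool.Agent.Results.MP_39d40e_nt.NaturalDensities.HasDensity {x : ℤ | ¬ Cycles d m r x} s δ → δ = 0 := by
      intro s hs δ hδ
      obtain ⟨δ', hδ', hδ0, _, h2⟩ := hmain s hs _ hS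
      have h4 : δ = δ' := tendsto_nhds_unique hδ hδ'
      rw [h4]
      by_contra hne'
      have hpos : 0 < δ' := lt_of_le_of_ne hδ0 (Ne.symm hne')
      obtain ⟨N₀, hN₀1, hN₀⟩ := h2 v hv0 hv (δ' / 2) (by positivity)
      have hψ' := hψ.eventually (gt_mem_nhds (show (0 : ℝ) < δ' / 4 by positivity))
      obtain ⟨N, ⟨q, hq, A, hA', hcard, hfew⟩, hN, hψN⟩ :=
        ((hfr s hs).and_eventually ((eventually_ge_atTop N₀).and hψ')).exists
      have h5 := hN₀ N hN q hq A hA' hcard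
      have hN1' : 1 ≤ N := hN₀1.trans hN
      have hN1 : (1 : ℝ) ≤ N := by exact_mod_cast hN1'
      have hρ := hrho (v := v) (hqpos hN1' hq) hcard
      have hρ0 : 0 < (A.card / q : ℝ) := lt_of_lt_of_le (by positivity) hρ
      have h6 : 0 < (A.card / q : ℝ) * N := by positivity
      have h7 := (abs_le.1 h5).1
      have h8 : count (fun n => n % q ∈ A ∧ s * (n : ℤ) ∈ {x : ℤ | ¬ Cycles d m r x}) N =
          count (fun n => n % q ∈ A ∧ ¬ Cycles d m r (s * n)) N := rfl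
      rw [h8] at h7
      nlinarith
    constructor
    · intro s hs
      obtain ⟨δ, hδ, _, h1, _⟩ := hmain s hs _ hS
      rw [hz s hs δ hδ] at h1
      exact h1
    · intro z hzz
      by_contra hcon
      obtain ⟨a', b', ha, hb, hab⟩ := hp {x : ℤ | ¬ Cycles d m r x} hS z hcon hzz
      have h1 := hz 1 (Or.inl rfl) a' ha
      have h2 := hz (-1) (Or.inr rfl) b' hb
      linarith
  · intro q χ hq hχ
    exact hlF (flatP_char hq hη.le hχ)
  · intro q a b hq hab
    exact hlF (flatP_quad hη.le hq hab b)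
  · intro p k hp hk hkp A hA h
    have h5 := flatI_pow hp hk hkp hA h
    exact ⟨h5.1, hlF h5.2⟩

end Pool.Agent.Results.MP_39d40e_nt.FlatResidues
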