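import Pool.Agent.Run7.h439.DC.Poly3
import Pool.Agent.Results.MP_39d40e_nt.PositiveClass
import Pool.Agent.Results.MP_39d40e_nt.NaturalDensities

set_option autoImplicit false

/-!
# Trajectories of generalised Collatz maps and polynomials modulo one

`T` is a generalised Collatz map of coprime type with `∏ |m_i / d| < 1`. We consider the integers of a
given sign whose absolute values `n` are such that the fractional part of `P(n)` is in a given interval, where `P`
is a real polynomial of degree at least two whose leading coefficient is irrational and not a Liouville number.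
-/

namespace Pool.Agent.Results.MP_39d40e_nt.PolynomialClasses

open Filter Topology

/-- The generalised Collatz map `T(x) = (m_i x - r_i) / d` for `x ≡ i mod d`, `0 ≤ i < d`. -/
def T (d : ℕ) (m r : ℕ → ℤ) (x : ℤ) : ℤ := (m (x % d).toNat * x - r (x % d).toNat) / d

/-- `S` is invariant: `x ∈ S` if and only if `T x ∈ S` (unions of classes of trajectories that
meet). -/
def Invariant (d : ℕ) (m r : ℕ → ℤ) (S : Set ℤ) : Prop := ∀ x : ℤ, x ∈ S ↔ T d m r x ∈ S

/-- the trajectory of `x` cycles -/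
def Cycles (d : ℕ) (m r : ℕ → ℤ) (x : ℤ) : Prop := ∃ j p : ℕ, 1 ≤ p ∧ (T d m r)^[j + p] x = (T d m r)^[j] x

/-- the product of the multipliers of the first `k` steps -/
def mult (d : ℕ) (m r : ℕ → ℤ) (k : ℕ) (x : ℤ) : ℤ :=
  ∏ i ∈ Finset.range k, m (((T d m r)^[i] x) % d).toNat

/-- the first term of the trajectory of `x` in `A` is the `k`-th -/
def Enters (d : ℕ) (m r : ℕ → ℤ) (A : Set ℤ) (k : ℕ) (x : ℤ) : Prop :=
  (T d m r)^[k] x ∈ A ∧ ∀ i < k, (T d m r)^[i] x ∉ A

/-- The values of `f` are in `[-1, 1]`, and `f x` depends only on the first term in `A` of the trajectory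
of `x`, on its time, and on the product of the multipliers before; `f` is constant on the set of the
integers whose trajectories miss `A`. -/
structure OfEntrance (d : ℕ) (m r : ℕ → ℤ) (A : Set ℤ) (f : ℤ → ℝ) : Prop where
  bounded : ∀ x, |f x| ≤ 1
  hit : ∀ (k : ℕ) (x y : ℤ), Enters d m r A k x → Enters d m r A k y → (T d m r)^[k] x = (T d m r)^[k] y →
    mult d m r k x = mult d m r k y → f x = f y
  miss : ∀ x y : ℤ, (∀ k, ¬ Enters d m r A k x) → (∀ k, ¬ Enters d m r A k y) → f x = f y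

/-- `α` is irrational and not a Liouville number. -/
def Diophantine (α : ℝ) : Prop :=
  ∃ A c : ℝ, 0 < c ∧ ∀ l : ℕ, 1 ≤ l → ∀ a : ℤ, c * (l : ℝ) ^ (-A) ≤ |l * α - a|

/-- The data: a real polynomial `P` of degree `e` with leading coefficient `α`, and `0 ≤ u ≤ v ≤ 1`. -/
structure Data (e : ℕ) (α : ℝ) (P : Polynomial ℝ) (u v : ℝ) : Prop where
  deg : P.natDegree ≤ e
  lead : P.coeff e = α
  nonneg : 0 ≤ u
  le : u ≤ v
  le_one : v ≤ 1

/-- the class: the fractional part of `P(n)` is in `[u, v)` -/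
def InClass (P : Polynomial ℝ) (u v : ℝ) (n : ℕ) : Prop :=
  u ≤ Int.fract (P.eval (n : ℝ)) ∧ Int.fract (P.eval (n : ℝ)) < v

/-- The set of the positive integers with the property `P` has natural density `δ`. -/
def HasDensity (P : ℕ → Prop) (δ : ℝ) : Prop :=
  Tendsto (fun N : ℕ => (Set.ncard {n : ℕ | 1 ≤ n ∧ n ≤ N ∧ P n} : ℝ) / N) atTop (𝓝 δ)

open Pool.Agent.Run7.h439.DC
open Pool.Agent.H319R3.GC (Tm Adm Mw wd Mw_cons)
open Pool.Agent.Y965.PL (Mn MnS ind ind_pos ind_neg ind_congr ind_nonneg)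

theorem mult_eq (d : ℕ) (m r : ℕ → ℤ) (k : ℕ) : ∀ x : ℤ, Mw m (wd d m r k x) = mult d m r k x := by
  induction k with
  | zero => intro x; simp [wd, Mw, mult]
  | succ k ih =>
    intro x
    simp only [wd]
    rw [Mw_cons, ih]
    unfold mult
    rw [Finset.prod_range_succ', mul_comm]
    rfl

theorem ef_of {d : ℕ} {m r : ℕ → ℤ} {A : Set ℤ} {f : ℤ → ℝ} (h : OfEntrance d m r A f) (s : ℤ) :
    EF d m r s (fun x => x ∈ A) (fun n => f (s * n)) := by
  refine ⟨fun n => h.bounded _, fun k n n' h1 h2 h3 h4 => ?_, fun n n' h1 h2 => h.miss _ _ h1 h2⟩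
  refine h.hit k _ _ h1 h2 h4 ?_
  rw [← mult_eq, ← mult_eq]
  exact h3

theorem count_ind (P : ℕ → Prop) (X : ℕ) :
    ({n : ℕ | 1 ≤ n ∧ n ≤ X ∧ P n}.ncard : ℝ) = ∑ n ∈ Finset.Icc 1 X, ind P n := by
  classical
  unfold ind
  rw [Finset.sum_boole]
  have e : {n : ℕ | 1 ≤ n ∧ n ≤ X ∧ P n} = ((Finset.Icc 1 X).filter fun n => P n : Finset ℕ) := by
    ext n
    simp only [Set.mem_ofPred_eq, Finset.coe_filter, Finset.mem_Icc, and_assoc]
  rw [e, Set.ncard_coe_finset]

theorem along_of {P Q : ℕ → Prop} {d : ℝ} (h : Mn (ind Q) d) (hPQ : ∀ n, 1 ≤ n → (P n ↔ Q n)) : HasDensity P d := by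
  unfold HasDensity
  unfold Mn at h
  refine h.congr fun X => ?_
  rw [count_ind P X]
  congr 1
  apply Finset.sum_congr rfl
  intro n hn
  exact ind_congr (hPQ _ (Finset.mem_Icc.1 hn).1).symm

theorem dens_unique {P : ℕ → Prop} {a b : ℝ} (h : HasDensity P a) (h' : HasDensity P b) : a = b := tendsto_nhds_unique h h'

theorem mn_of {S : Set ℤ} {s : ℤ} (hs : s = 1 ∨ s = -1) {δ : ℝ}
    (h : Pool.Agent.Results.MP_39d40e_nt.NaturalDensities.HasDensity S s δ) : Mn (ind (fun n : ℕ => s * (n : ℤ) ∈ S)) δ := by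
  unfold Pool.Agent.Y965.PL.Mn
  refine Filter.Tendsto.congr (fun N => ?_) h
  rw [← side_count hs S N]
  congr 3
  ext x
  simp only [Set.mem_ofPred_eq]
  constructor
  · rintro ⟨h1, h2, h3⟩; exact ⟨by omega, h3, h1⟩
  · rintro ⟨h1, h2, h3⟩; exact ⟨h3, by omega, h2⟩

theorem cyc_inv (d : ℕ) (m r : ℕ → ℤ) : Invariant d m r {x : ℤ | Cycles d m r x} := by
  intro x
  constructor
  · rintro ⟨j, p, hp, h⟩
    refine ⟨j, p, hp, ?_⟩
    rw [← Function.iterate_succ_apply, ← Function.iterate_succ_apply, Function.iterate_succ_apply',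
      Function.iterate_succ_apply', h]
  · rintro ⟨j, p, hp, h⟩
    refine ⟨j + 1, p, hp, ?_⟩
    have e : j + 1 + p = (j + p) + 1 := by ring
    rw [e, Function.iterate_succ_apply, Function.iterate_succ_apply]
    exact h

/-- TRAJECTORIES OF GENERALISED COLLATZ MAPS IN THE CLASSES OF POLYNOMIALS. `T` of coprime type
(`gcd(m_i, d) = 1`) with `Λ < 1`, that is `∏ |m_i / d| < 1`, and not all `|m_i|` equal; `Π = ∏ |m_i|`.

(1) (Uniform transfer.) For all `e ≥ 2` and all `α` which are not Liouville numbers and not rational there are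
`K` and `c > 0` such that for both signs `s`, all functions `f` with `f (T x) = f x` and `|f| ≤ 1`, all real
polynomials `P` of degree `e` with leading coefficient `α`, all `0 ≤ u ≤ v ≤ 1`, all residue classes `b` modulo `M`
and all `X ≥ 1` the sum of `f (s n)` over the `n ≤ X`, `n ≡ b` modulo `M`, with the fractional part of `P(n)` in
`[u, v)` is `v - u` times the sum over all `n ≤ X`, `n ≡ b` modulo `M`, up to `K X ^ (1 - c)`.

(2) For all such `e`, `α` and all `R` there are `K` and `c > 0` such that the same holds for all functions `f` of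
the first entrance into a set `A ⊆ [-R, R]` (time, place, product of the multipliers), uniformly in `A` and `f`.

(3) For every invariant set `S` and both signs `s` the `n` with `s n ∈ S` have a natural density `δ`, and those
with the fractional part of `P(n)` in `[u, v)` have natural density `(v - u) * δ`, for all such `P` and `u`, `v`.

(4) There are `N` and `y₀` such that, if for some such `P` and some `u < v` for both signs `s` the `n` with the
fractional part of `P(n)` in `[u, v)` for which the trajectory of `s n` does not cycle have natural density `0`,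
then for both signs `s` the `n` for which the trajectory of `s n` does not cycle have natural density `0`, and the
trajectory of every `z ≡ y₀ mod Π ^ N` cycles. -/
theorem result (d : ℕ) (hd : 2 ≤ d) (m r : ℕ → ℤ) (hm : ∀ i < d, IsCoprime (m i) (d : ℤ))
    (hr : ∀ i < d, r i ≡ i * m i [ZMOD d]) (hL : ∏ i ∈ Finset.range d, |(m i : ℝ) / d| < 1)
    (hne : ∃ i < d, ∃ j < d, |m i| ≠ |m j|) :
    (∀ (e : ℕ) (α : ℝ), 2 ≤ e → Diophantine α → ∃ K c : ℝ, 0 < c ∧
      ∀ s : ℤ, s = 1 ∨ s = -1 → ∀ f : ℤ → ℝ, (∀ x, |f x| ≤ 1) → (∀ x, f (T d m r x) = f x) →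
      ∀ (P : Polynomial ℝ) (u v : ℝ), Data e α P u v → ∀ M b X : ℕ, 1 ≤ M → 1 ≤ X →
        |∑ᶠ n ∈ {n : ℕ | 1 ≤ n ∧ n ≤ X ∧ n ≡ b [MOD M] ∧ InClass P u v n}, f (s * n) -
          (v - u) * ∑ᶠ n ∈ {n : ℕ | 1 ≤ n ∧ n ≤ X ∧ n ≡ b [MOD M]}, f (s * n)| ≤ K * (X : ℝ) ^ (1 - c)) ∧
    (∀ (e : ℕ) (α : ℝ), 2 ≤ e → Diophantine α → ∀ R : ℕ, ∃ K c : ℝ, 0 < c ∧
      ∀ s : ℤ, s = 1 ∨ s = -1 → ∀ A : Set ℤ, (∀ x ∈ A, |x| ≤ (R : ℤ)) → ∀ f : ℤ → ℝ, OfEntrance d m r A f →
      ∀ (P : Polynomial ℝ) (u v : ℝ), Data e α P u v → ∀ M b X : ℕ, 1 ≤ M → 1 ≤ X →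
        |∑ᶠ n ∈ {n : ℕ | 1 ≤ n ∧ n ≤ X ∧ n ≡ b [MOD M] ∧ InClass P u v n}, f (s * n) -
          (v - u) * ∑ᶠ n ∈ {n : ℕ | 1 ≤ n ∧ n ≤ X ∧ n ≡ b [MOD M]}, f (s * n)| ≤ K * (X : ℝ) ^ (1 - c)) ∧
    (∀ s : ℤ, s = 1 ∨ s = -1 → ∀ S : Set ℤ, Invariant d m r S → ∃ δ : ℝ,
      HasDensity (fun n => s * (n : ℤ) ∈ S) δ ∧
      ∀ (e : ℕ) (α : ℝ), 2 ≤ e → Diophantine α → ∀ (P : Polynomial ℝ) (u v : ℝ), Data e α P u v →
        HasDensity (fun n => InClass P u v n ∧ s * (n : ℤ) ∈ S) ((v - u) * δ)) ∧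
    ∃ (N : ℕ) (y₀ : ℤ), ∀ (e : ℕ) (α : ℝ), 2 ≤ e → Diophantine α →
      ∀ (P : Polynomial ℝ) (u v : ℝ), Data e α P u v → u < v →
      (∀ s : ℤ, s = 1 ∨ s = -1 → HasDensity (fun n => InClass P u v n ∧ ¬ Cycles d m r (s * n)) 0) →
      (∀ s : ℤ, s = 1 ∨ s = -1 → HasDensity (fun n => ¬ Cycles d m r (s * n)) 0) ∧
      ∀ z : ℤ, z ≡ y₀ [ZMOD (∏ i ∈ Finset.range d, |m i|) ^ N] → Cycles d m r z := by
  classical
  have hA : Adm d m r := by
    obtain ⟨i, hi, j, hj, hij⟩ := hne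
    have hij' : (m i).natAbs ≠ (m j).natAbs := by
      intro hcon
      apply hij
      rw [Int.abs_eq_natAbs, Int.abs_eq_natAbs, hcon]
    have hd0 : (0 : ℝ) < d := by positivity
    have hadm : ∀ i < d, (d : ℤ) ∣ m i * i - r i := by
      intro i hi
      have h1 := (hr i hi).dvd
      rwa [mul_comm (i : ℤ)] at h1
    have hc : ∏ i ∈ Finset.range d, (m i).natAbs < d ^ d := by
      have h1 : ∏ i ∈ Finset.range d, |(m i : ℝ) / d| = (∏ i ∈ Finset.range d, |(m i : ℝ)|) / (d : ℝ) ^ d := by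
        simp only [abs_div, abs_of_pos hd0]
        rw [Finset.prod_div_distrib, Finset.prod_const, Finset.card_range]
      rw [h1, div_lt_one (by positivity)] at hL
      have h2 : ((∏ i ∈ Finset.range d, (m i).natAbs : ℕ) : ℝ) = ∏ i ∈ Finset.range d, |(m i : ℝ)| := by
        push_cast
        refine Finset.prod_congr rfl fun i _ => ?_
        rw [Nat.cast_natAbs]
        push_cast
        rfl
      have h3 : ((∏ i ∈ Finset.range d, (m i).natAbs : ℕ) : ℝ) < ((d ^ d : ℕ) : ℝ) := by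
        rw [h2]; push_cast; exact hL
      exact_mod_cast h3
    have hnz : ∀ i ∈ Finset.range d, 1 ≤ (m i).natAbs := by
      intro i hi
      rcases Nat.eq_zero_or_pos (m i).natAbs with h0 | h0
      · exfalso
        have h1 := hm i (Finset.mem_range.1 hi)
        rw [Int.natAbs_eq_zero.1 h0] at h1
        have h2 := isCoprime_zero_left.1 h1
        have h3 := Int.isUnit_iff.1 h2
        omega
      · exact h0
    have hbig : 2 ≤ ∏ i ∈ Finset.range d, (m i).natAbs := by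
      have h1 : 2 ≤ (m i).natAbs ∨ 2 ≤ (m j).natAbs := by
        have h2 := hnz i (Finset.mem_range.2 hi)
        have h3 := hnz j (Finset.mem_range.2 hj)
        omega
      have h4 : ∀ l < d, (m l).natAbs ≤ ∏ i ∈ Finset.range d, (m i).natAbs := by
        intro l hl
        exact Nat.le_of_dvd (Finset.prod_pos fun i hi => hnz i hi)
          (Finset.dvd_prod_of_mem _ (Finset.mem_range.2 hl))
      rcases h1 with h1 | h1
      · exact h1.trans (h4 i hi)
      · exact h1.trans (h4 j hj)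
    exact ⟨hd, hm, hadm, hc, hbig⟩
  have hPD : ∀ {e : ℕ} {α : ℝ} {P : Polynomial ℝ} {u v : ℝ}, 2 ≤ e → Data e α P u v → PD (e - 1) α P u v := by
    intro e α P u v he hD
    have e1 : e - 1 + 1 = e := by omega
    exact ⟨by rw [e1]; exact hD.deg, by rw [e1]; exact hD.lead, hD.nonneg, hD.le, hD.le_one⟩
  have hsum : ∀ (M b X : ℕ) (g : ℕ → ℝ),
      ∑ᶠ n ∈ {n : ℕ | 1 ≤ n ∧ n ≤ X ∧ n ≡ b [MOD M]}, g n = ∑ n ∈ Finset.Icc 1 X, Rs M b g n := by
    intro M b X g
    rw [finsum_mem_eq_finite_toFinset_sum _ ((Set.finite_Iic X).subset fun n hn => hn.2.1)]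
    have e : ((Set.finite_Iic X).subset fun n (hn : n ∈ {n : ℕ | 1 ≤ n ∧ n ≤ X ∧ n ≡ b [MOD M]}) => hn.2.1).toFinset
        = (Finset.Icc 1 X).filter (fun n => n % M = b % M) := by
      ext n
      simp only [Set.Finite.mem_toFinset, Set.mem_ofPred_eq, Finset.mem_filter, Finset.mem_Icc, and_assoc]
      exact Iff.rfl
    rw [e, Finset.sum_filter]
    rfl
  have hset : ∀ (P : Polynomial ℝ) (u v : ℝ) (M b X : ℕ) (g : ℕ → ℝ),
      ∑ᶠ n ∈ {n : ℕ | 1 ≤ n ∧ n ≤ X ∧ n ≡ b [MOD M] ∧ InClass P u v n}, g n =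
        ∑ n ∈ Finset.Icc 1 X, ind (Ep P u v) n * Rs M b g n := by
    intro P u v M b X g
    rw [finsum_mem_eq_finite_toFinset_sum _ ((Set.finite_Iic X).subset fun n hn => hn.2.1)]
    have e : ((Set.finite_Iic X).subset fun n
        (hn : n ∈ {n : ℕ | 1 ≤ n ∧ n ≤ X ∧ n ≡ b [MOD M] ∧ InClass P u v n}) => hn.2.1).toFinset
        = (Finset.Icc 1 X).filter (fun n => n % M = b % M ∧ Ep P u v n) := by
      ext n
      simp only [Set.Finite.mem_toFinset, Set.mem_ofPred_eq, Finset.mem_filter, Finset.mem_Icc, and_assoc]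
      exact Iff.rfl
    rw [e, Finset.sum_filter]
    apply Finset.sum_congr rfl
    intro n _
    unfold Rs
    by_cases h : Ep P u v n
    · rw [ind_pos h, one_mul]
      by_cases h2 : n % M = b % M
      · rw [if_pos ⟨h2, h⟩, if_pos h2]
      · rw [if_neg (fun h' => h2 h'.1), if_neg h2]
    · rw [if_neg (fun h' => h h'.2), ind_neg h, zero_mul]
  obtain ⟨hnat, _, _⟩ := Pool.Agent.Results.MP_39d40e_nt.NaturalDensities.result d hd m r hm hr hL hne
  have hmain : ∀ s : ℤ, s = 1 ∨ s = -1 → ∀ S : Set ℤ, Invariant d m r S → ∃ δ : ℝ,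
      Pool.Agent.Results.MP_39d40e_nt.NaturalDensities.HasDensity S s δ ∧
      HasDensity (fun n => s * (n : ℤ) ∈ S) δ ∧
      ∀ (e : ℕ) (α : ℝ), 2 ≤ e → Diophantine α → ∀ (P : Polynomial ℝ) (u v : ℝ), Data e α P u v →
        HasDensity (fun n => InClass P u v n ∧ s * (n : ℤ) ∈ S) ((v - u) * δ) := by
    intro s hs S hS
    obtain ⟨δ, hδ⟩ : ∃ δ : ℝ, Pool.Agent.Results.MP_39d40e_nt.NaturalDensities.HasDensity S s δ := by
      obtain ⟨a, b, ha, hb, _⟩ := hnat S hS
      rcases hs with rfl | rfl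
      · exact ⟨a, ha⟩
      · exact ⟨b, hb⟩
    have hM := mn_of hs hδ
    refine ⟨δ, hδ, along_of hM fun _ _ => Iff.rfl, fun e α he hα P u v hD => ?_⟩
    obtain ⟨C, c, hC, hc0, _, hT⟩ := inv_ctp hA (k := e - 1) (by omega) hα
    have h1 := inv_ctp_set (s := s) (fun f hb hf M b hM => hT s hs f hb hf P u v (hPD he hD) M b hM) (S := S) hS
      (le_refl 1) 0
    have h2 : CT (Ep P u v) (v - u) C c (ind (fun n => s * (n : ℤ) ∈ S)) := by
      refine h1.congr fun n => ind_congr ?_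
      simp [Nat.mod_one]
    exact along_of (cls_set (by linarith [hD.le]) (by linarith [hD.nonneg, hD.le_one]) hc0 h2 hM) fun n _ => Iff.rfl
  refine ⟨fun e α he hα => ?_, fun e α he hα R => ?_, fun s hs S hS => ?_, ?_⟩
  · obtain ⟨C, c, hC, hc0, _, hT⟩ := inv_ctp hA (k := e - 1) (by omega) hα
    refine ⟨C, c, hc0, fun s hs f hb hf P u v hD M b X hM hX => ?_⟩
    rw [hset, hsum]
    exact (hT s hs f hb hf P u v (hPD he hD) M b hM).tr X hX
  · obtain ⟨C, c, hC, hc0, _, hT⟩ := fe_ctp hA R (k := e - 1) (by omega) hα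
    refine ⟨C, c, hc0, fun s hs A hAR f hf P u v hD M b X hM hX => ?_⟩
    rw [hset, hsum]
    exact (hT s hs _ hAR _ (ef_of hf s) P u v (hPD he hD) M b hM).tr X hX
  · obtain ⟨δ, _, h1, h2⟩ := hmain s hs S hS
    exact ⟨δ, h1, h2⟩
  · obtain ⟨N, y₀, _, hp, _⟩ := Pool.Agent.Results.MP_39d40e_nt.PositiveClass.result d hd m r hm hr hL hne
    refine ⟨N, y₀, fun e α he hα P u v hD huv h => ?_⟩
    have hS : Invariant d m r {x : ℤ | ¬ Cycles d m r x} := fun x => not_congr (cyc_inv d m r x)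
    have hz : ∀ s : ℤ, s = 1 ∨ s = -1 → ∀ δ : ℝ,
        Pool.Agent.Results.MP_39d40e_nt.NaturalDensities.HasDensity {x : ℤ | ¬ Cycles d m r x} s δ → δ = 0 := by
      intro s hs δ hδ
      obtain ⟨δ', hδ', _, h2⟩ := hmain s hs _ hS
      have h3 := dens_unique (h2 e α he hα P u v hD) (h s hs)
      have h4 : δ = δ' := tendsto_nhds_unique hδ hδ'
      rcases mul_eq_zero.1 h3 with h5 | h5
      · exact absurd h5 (by linarith)
      · rw [h4, h5]
    constructor
    · intro s hs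
      obtain ⟨δ, hδ, h1, _⟩ := hmain s hs _ hS
      rw [hz s hs δ hδ] at h1
      exact h1
    · intro z hzz
      by_contra hcon
      obtain ⟨a', b', ha, hb, hab⟩ := hp {x : ℤ | ¬ Cycles d m r x} hS z hcon hzz
      have h1 := hz 1 (Or.inl rfl) a' ha
      have h2 := hz (-1) (Or.inr rfl) b' hb
      linarith

end Pool.Agent.Results.MP_39d40e_nt.PolynomialClasses
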