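import Mathlib
import Pool.Agent.Run7.h603.Dl6

set_option autoImplicit false

/-!
# Generalized Collatz maps: product sets of trajectories and of finite unions of cycles

Let `T x = (m_i x - r_i) / d` for `x ≡ i (mod d)` be a generalized Collatz map as in the question:
`d ≥ 2`, the `m_i` are nonzero integers of either sign, `r_i ≡ i m_i (mod d)`. No condition on the
common divisors of `m_i` and `d`, or on Leigh's chain. Let `τ ≥ 1` be a bound for the numbers of divisors
of the `r_i`. A step `x ↦ T x` is called affine if `r_i ≠ 0` for the class `i` of `x`.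

For a finite set `X` of integers and a number `s` the property `Large X s` says:
* the set `X^(N)` of the products of `N` elements of `X` has at least `s ^ (log N / (log log N + 7/5))`
  elements, for every `N ≥ 2` (so the exponent tends to infinity with `N`);
* there are at least `(s / 4) ^ (5/4)` products of two elements;
* `X` expands every finite set of rational numbers by multiplication.

The theorem: `X` is `Large` in terms of the number of the affine steps inside `X`, divided by `2 d τ`,
1. for an arbitrary finite set `X` of integers;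
2. for the set `X` of the first `n` terms of a trajectory, if they are distinct;
3. for a finite union `X` of cycles which does not contain `0`, or almost all of it: one long cycle or
   many short ones.
4. If the branches with `r_i = 0` are contracting, `|m_i| < d`, this gives `s = n / C` with a constant `C`
   which depends on `T` only, for finite unions of cycles with `n` elements (also if a small
   proportion of the elements is removed), for the first `n` terms of a trajectory with
   `|T^n x| ≥ |x|`, and for the first `n` terms of a divergent trajectory, for all large `n`.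

A condition of this kind is necessary: with `r_i = 0`, `m_i = c d` the map has the trajectories
`x, c x, c² x, …`, and the product sets of geometric progressions are small.

Method. Let `S` be the set of the elements of `X` with an affine step inside `X`. A part `B` of `S` with
at least `|S| / (2 d τ)` elements belongs to one class `i`, has one sign and one greatest common divisor
`g` of its elements with `r_i`. After division by `g` the numbers `|m_i| y` and `|m_i| y ± r_i / g` are
coprime, up to constant factors both belong to `X`, and the theorems on shifted sets of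
`Pool/Agent/Run7/h603` apply (built on the starting files `Pool/Agent/N811/IS` for the theorem of Bourgain
and Chang, and `Pool/Agent/W975/SP` for two factors). For 4 the product of all `|T y| / |y|` is at least
`1`, so a positive proportion of the steps is affine.
-/

namespace Pool.Agent.Results.MP_39d40e_nt.ProductsOfTrajectories

/-- The generalized Collatz map `T x = (m_i x - r_i) / d`, where `i` is the residue of `x` modulo `d`. -/
def T (d : ℕ) (m r : ℕ → ℤ) (x : ℤ) : ℤ := (m (x % d).toNat * x - r (x % d).toNat) / d

/-- The step from `x` to `T x` uses a branch with `r_i ≠ 0`. -/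
def Affine (d : ℕ) (r : ℕ → ℤ) (x : ℤ) : Prop := r (x % d).toNat ≠ 0

instance (d : ℕ) (r : ℕ → ℤ) : DecidablePred (Affine d r) := fun x => by
  unfold Affine; infer_instance

/-- The nonzero elements `y` of `X` with an affine step to a nonzero element `T y` of `X`. -/
def active (d : ℕ) (m r : ℕ → ℤ) (X : Finset ℤ) : Finset ℤ :=
  X.filter fun y => y ≠ 0 ∧ T d m r y ≠ 0 ∧ T d m r y ∈ X ∧ Affine d r y

/-- The terms `x, T x, …, T^{n-1} x` of the trajectory of `x`. -/
def terms (d : ℕ) (m r : ℕ → ℤ) (x : ℤ) (n : ℕ) : Finset ℤ :=
  (Finset.range n).image fun k => (T d m r)^[k] x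

/-- The number of the affine steps among the first `n` steps of the trajectory of `x`. -/
def affineSteps (d : ℕ) (m r : ℕ → ℤ) (x : ℤ) (n : ℕ) : ℕ :=
  ((Finset.range n).filter fun k => Affine d r ((T d m r)^[k] x)).card

/-- The set of the products of `N` elements of `X` (which need not be distinct). -/
def prods (N : ℕ) (X : Finset ℤ) : Finset ℤ :=
  (Fintype.piFinset fun _ : Fin N => X).image fun f => ∏ i, f i

/-- The exponent `log N / (log log N + 7/5)`. -/
noncomputable def expo (N : ℕ) : ℝ := Real.log N / (Real.log (Real.log N) + 7 / 5)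

/-- The product sets of `X` are large in terms of the number `s`. -/
def Large (X : Finset ℤ) (s : ℝ) : Prop :=
  -- products of `N` elements
  (∀ N : ℕ, 2 ≤ N → s ^ expo N ≤ ((prods N X).card : ℝ)) ∧
  -- products of two elements
  (s / 4) ^ (5 / 4 : ℝ) ≤ ((prods 2 X).card : ℝ) ∧
  -- products with the elements of an arbitrary set
  ∀ Y : Finset ℚ, Y.Nonempty → (0 : ℚ) ∉ Y → ∀ (N : ℕ) (t β : ℝ), 2 ≤ N → 2 ≤ t → 0 ≤ β →
    1 / (2 ^ (1 / t) - 1) ≤ ((N : ℝ) - (N - 1) * (2 ^ (1 / t) - 1)) ^ β →
    s ^ (1 + β) * (Y.card : ℝ) ^ (1 - 1 / t) ≤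
      ((Finset.image₂ (fun (z : ℤ) (y : ℚ) => (z : ℚ) * y) X Y).card : ℝ) *
        ((prods N X).card : ℝ) ^ β

theorem result (d : ℕ) (hd : 2 ≤ d) (m r : ℕ → ℤ) (hm : ∀ i < d, m i ≠ 0)
    (hr : ∀ i < d, r i ≡ i * m i [ZMOD d])
    (τ : ℕ) (hτ1 : 1 ≤ τ) (hτ : ∀ i < d, (Nat.divisors (r i).natAbs).card ≤ τ) :
    -- 1. arbitrary finite sets of integers
    (∀ (X : Finset ℤ) (s : ℝ), 0 ≤ s → s * (2 * d * τ) ≤ (active d m r X).card → Large X s) ∧
    -- 2. trajectories
    (∀ (x : ℤ) (n : ℕ) (s : ℝ), Set.InjOn (fun k => (T d m r)^[k] x) (Set.Iio n) → 0 ≤ s →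
      s * (2 * d * τ) + 3 ≤ affineSteps d m r x n → Large (terms d m r x n) s) ∧
    -- 3. finite unions of cycles
    (∀ (P X : Finset ℤ) (s : ℝ), (0 : ℤ) ∉ P → P.image (T d m r) = P → X ⊆ P → 0 ≤ s →
      s * (2 * d * τ) + 2 * (P \ X).card ≤ (P.filter (Affine d r)).card → Large X s) ∧
    -- 4. the branches with `r_i = 0` are contracting
    ∀ M K : ℕ, (∀ i < d, r i = 0 → |m i| < d) → (∀ i < d, |m i| + |r i| ≤ M) → 1 ≤ K →
      M * (d - 1) ^ (K - 1) ≤ d ^ K →
      -- finite unions of cycles
      (∀ P X : Finset ℤ, (0 : ℤ) ∉ P → P.image (T d m r) = P → X ⊆ P →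
        4 * K * (P \ X).card ≤ P.card → Large X ((P.card : ℝ) / (4 * d * τ * K))) ∧
      -- trajectories which return above their initial value
      (∀ (x : ℤ) (n : ℕ), Set.InjOn (fun k => (T d m r)^[k] x) (Set.Iio n) →
        (∀ k ≤ n, (T d m r)^[k] x ≠ 0) → |x| ≤ |(T d m r)^[n] x| → 6 * K ≤ n →
        Large (terms d m r x n) ((n : ℝ) / (4 * d * τ * K))) ∧
      -- divergent trajectories
      (∀ x : ℤ, Function.Injective (fun k => (T d m r)^[k] x) →
        ∃ n₀ : ℕ, ∀ n ≥ n₀, Large (terms d m r x n) ((n : ℝ) / (4 * d * τ * K))) := by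
  refine ⟨?_, ?_, ?_, ?_⟩
  · intro X s hs0 hs
    exact Run7.h603.GC.arbitrary hd hm hr X τ hτ1 hτ s hs0 hs
  · intro x n s hinj hs0 hs
    exact Run7.h603.GC.trajectory hd hm hr x n (affineSteps d m r x n) hinj le_rfl τ hτ1 hτ s hs0 hs
  · intro P X s h0 hP hX hs0 hs
    exact Run7.h603.GC.cycles hd hm hr P X h0 hP hX (P.filter (Affine d r)).card le_rfl τ hτ1 hτ s
      hs0 hs
  · intro M K hc hM hK hMK
    refine ⟨?_, ?_, ?_⟩
    · intro P X h0 hP hX hmiss
      exact Run7.h603.GC.cycles' hd hm hr τ hτ1 hτ hc M K hM hK hMK P X h0 hP hX hmiss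
    · intro x n hinj h0 hup hn
      exact Run7.h603.GC.trajectory' hd hm hr τ hτ1 hτ hc M K hM hK hMK x n hinj h0 hup hn
    · intro x hinj
      exact Run7.h603.GC.divergent hd hm hr τ hτ1 hτ hc M K hM hK hMK x hinj

end Pool.Agent.Results.MP_39d40e_nt.ProductsOfTrajectories
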